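import Pool.Agent.H99.NR.Stm

set_option linter.all false
set_option autoImplicit false

open MeasureTheory ProbabilityTheory Pool.Agent.H99.NR

noncomputable section

namespace Pool.Agent.H11.NR

/-- the deterministic part -/
theorem det_norm (n : ℕ) (a : Fin n → Fin n → ℝ) (b : ℝ) (hb : 0 ≤ b) (I J : Finset (Fin n))
    (hJ : ∀ z : Fin n → ℝ, (∀ j, j ∈ J → z j = 0) →
      ∑ i, (∑ j, a i j * z j) ^ 2 ≤ b ^ 2 * ∑ j, z j ^ 2)
    (hI : ∀ z : Fin n → ℝ, (∀ j, j ∈ I → z j = 0) →
      ∑ i, (∑ j, a j i * z j) ^ 2 ≤ b ^ 2 * ∑ j, z j ^ 2) (z : Fin n → ℝ) :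
    ∑ i, (∑ j, (if i ∈ I ∧ j ∈ J then 0 else a i j) * z j) ^ 2 ≤ (2 * b) ^ 2 * ∑ j, z j ^ 2 := by
  classical
  set S := ∑ j, z j ^ 2 with hS
  set p : Fin n → ℝ := fun i => ∑ j, a i j * (if j ∈ J then 0 else z j) with hp
  set q : Fin n → ℝ := fun i => if i ∈ I then 0 else ∑ j, a i j * (if j ∈ J then z j else 0) with hq
  have e : ∀ i, (∑ j, (if i ∈ I ∧ j ∈ J then 0 else a i j) * z j) = p i + q i := by
    intro i
    simp only [hp, hq]
    by_cases hi : i ∈ I
    · rw [if_pos hi, add_zero]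
      refine Finset.sum_congr rfl fun j _ => ?_
      by_cases hj : j ∈ J
      · rw [if_pos ⟨hi, hj⟩, if_pos hj]; ring
      · rw [if_neg (fun h => hj h.2), if_neg hj]
    · rw [if_neg hi, ← Finset.sum_add_distrib]
      refine Finset.sum_congr rfl fun j _ => ?_
      rw [if_neg (fun h => hi h.1)]
      by_cases hj : j ∈ J
      · rw [if_pos hj, if_pos hj]; ring
      · rw [if_neg hj, if_neg hj]; ring
  have hp2 : ∑ i, p i ^ 2 ≤ b ^ 2 * S := by
    refine (hJ (fun j => if j ∈ J then 0 else z j) (fun j hj => if_pos hj)).trans ?_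
    apply mul_le_mul_of_nonneg_left _ (sq_nonneg b)
    refine Finset.sum_le_sum fun j _ => ?_
    by_cases hj : j ∈ J
    · simp only [if_pos hj]
      have := sq_nonneg (z j)
      linarith
    · simp only [if_neg hj]; exact le_refl _
  have hq2 : ∑ i, q i ^ 2 ≤ b ^ 2 * S := by
    set Q := ∑ i, q i ^ 2 with hQ
    have hQ0 : 0 ≤ Q := Finset.sum_nonneg fun i _ => sq_nonneg _
    have hS0 : 0 ≤ S := Finset.sum_nonneg fun i _ => sq_nonneg _
    have e1 : Q = ∑ j, (if j ∈ J then z j else 0) * (∑ i, a i j * q i) := by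
      have e2 : Q = ∑ i, q i * (∑ j, a i j * (if j ∈ J then z j else 0)) := by
        refine Finset.sum_congr rfl fun i _ => ?_
        simp only [hq]
        by_cases hi : i ∈ I
        · rw [if_pos hi]; ring
        · rw [if_neg hi]; ring
      rw [e2]
      simp only [Finset.mul_sum]
      rw [Finset.sum_comm]
      refine Finset.sum_congr rfl fun j _ => Finset.sum_congr rfl fun i _ => by ring
    have e3 : Q ^ 2 ≤ S * (b ^ 2 * Q) := by
      have e4 : Q ^ 2 = (∑ j, (if j ∈ J then z j else 0) * (∑ i, a i j * q i)) ^ 2 := by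
        rw [← e1]
      rw [e4]
      refine (Finset.sum_mul_sq_le_sq_mul_sq _ _ _).trans ?_
      apply mul_le_mul
      · refine Finset.sum_le_sum fun j _ => ?_
        by_cases hj : j ∈ J
        · simp only [if_pos hj]; exact le_refl _
        · simp only [if_neg hj]
          have := sq_nonneg (z j)
          linarith
      · exact hI q (fun j hj => by simp only [hq]; rw [if_pos hj])
      · exact Finset.sum_nonneg fun i _ => sq_nonneg _
      · exact hS0
    rcases eq_or_lt_of_le hQ0 with h0 | h0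
    · rw [← h0]; positivity
    · have e4 : Q * Q ≤ (b ^ 2 * S) * Q := by
        calc Q * Q = Q ^ 2 := by ring
          _ ≤ _ := e3
          _ = _ := by ring
      exact le_of_mul_le_mul_right e4 h0
  calc ∑ i, (∑ j, (if i ∈ I ∧ j ∈ J then 0 else a i j) * z j) ^ 2
      = ∑ i, (p i + q i) ^ 2 := Finset.sum_congr rfl fun i _ => by rw [e i]
    _ ≤ ∑ i, (2 * p i ^ 2 + 2 * q i ^ 2) := Finset.sum_le_sum fun i _ => by
        have := sq_nonneg (p i - q i)
        have e5 : (p i + q i) ^ 2 + (p i - q i) ^ 2 = 2 * p i ^ 2 + 2 * q i ^ 2 := by ring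
        linarith
    _ = 2 * ∑ i, p i ^ 2 + 2 * ∑ i, q i ^ 2 := by
        rw [Finset.sum_add_distrib, Finset.mul_sum, Finset.mul_sum]
    _ ≤ 2 * (b ^ 2 * S) + 2 * (b ^ 2 * S) := by linarith
    _ = _ := by ring

theorem opnorm_bound (n : ℕ) (M : Matrix (Fin n) (Fin n) ℝ) (b : ℝ) (hb : 0 ≤ b)
    (h : ∀ z : Fin n → ℝ, ∑ i, (∑ j, M i j * z j) ^ 2 ≤ b ^ 2 * ∑ j, z j ^ 2) :
    ‖Matrix.toEuclideanCLM (𝕜 := ℝ) M‖ ≤ b := by
  refine ContinuousLinearMap.opNorm_le_bound _ hb fun z => ?_
  rw [EuclideanSpace.norm_eq, EuclideanSpace.norm_eq, ← Real.sqrt_sq hb, ← Real.sqrt_mul (sq_nonneg b)]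
  apply Real.sqrt_le_sqrt
  have := h (WithLp.ofLp z)
  simp only [Real.norm_eq_abs, sq_abs]
  refine le_trans (le_of_eq ?_) this
  refine Finset.sum_congr rfl fun i _ => ?_
  rw [Matrix.ofLp_toEuclideanCLM]
  rfl

theorem law_matrix (n : ℕ) (hn : 1 ≤ n) (Ω : Type) [MeasurableSpace Ω] (P : Measure Ω)
    [IsProbabilityMeasure P] (A : Fin n → Fin n → Ω → ℝ) (hA : ∀ i j, Measurable (A i j))
    (hI : iIndepFun (fun p : Fin n × Fin n => A p.1 p.2) P)
    (hid : ∀ i j i' j', IdentDistrib (A i j) (A i' j') P P) :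
    P.map (fun ω i j => A i j ω) = matLaw n (P.map (A ⟨0, hn⟩ ⟨0, hn⟩)) := by
  set ν := P.map (A ⟨0, hn⟩ ⟨0, hn⟩) with hν
  have hνp : IsProbabilityMeasure ν := Measure.isProbabilityMeasure_map (hA _ _).aemeasurable
  have h1 : P.map (fun ω (p : Fin n × Fin n) => A p.1 p.2 ω) = Measure.pi (fun _ => ν) := by
    have h4 := (iIndepFun_iff_map_fun_eq_pi_map (μ := P) (f := fun p : Fin n × Fin n => A p.1 p.2)
      (fun p => (hA p.1 p.2).aemeasurable)).1 hI
    rw [h4]
    congr 1
    funext p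
    exact (hid p.1 p.2 ⟨0, hn⟩ ⟨0, hn⟩).map_eq
  have h2 : (Measure.pi (fun _ : Fin n × Fin n => ν)).map (MeasurableEquiv.curry (Fin n) (Fin n) ℝ)
      = matLaw n ν := by
    have h3 := Measure.infinitePi_map_curry (fun (_ : Fin n) (_ : Fin n) => ν)
    rw [Measure.infinitePi_eq_pi, Measure.infinitePi_eq_pi] at h3
    rw [h3]
    unfold matLaw rowLaw
    congr 1
    funext i
    exact Measure.infinitePi_eq_pi _
  rw [← h2, ← h1, Measure.map_map (MeasurableEquiv.measurable _) (by fun_prop)]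
  rfl

theorem law_entry (n : ℕ) (K : ℝ) (Ω : Type) [MeasurableSpace Ω] (P : Measure Ω)
    [IsProbabilityMeasure P] (X : Ω → ℝ) (hX : Measurable X) (h1 : ∫ ω, X ω ∂P = 0)
    (h2 : ∫ ω, X ω ^ 2 ∂P = 1) (h3 : ∀ᵐ ω ∂P, |X ω| ≤ K * √n) : Law K n (P.map X) where
  prob := Measure.isProbabilityMeasure_map hX.aemeasurable
  mean := by
    rw [integral_map hX.aemeasurable (by fun_prop)]
    exact h1
  var := by
    rw [integral_map hX.aemeasurable (by fun_prop)]
    exact h2
  bdd := by
    rw [ae_map_iff hX.aemeasurable]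
    · exact h3
    · exact measurableSet_le (by fun_prop) (by fun_prop)

theorem t_FIN (hONE : S_ONE) (hTRP : S_TRP) : S_FIN := by
  intro K hK
  obtain ⟨C, hC, hone⟩ := hONE K hK
  refine ⟨2 * C, by positivity, ?_⟩
  intro n ε hε hε6 Ω _ P hP A hA hI hid hm hv hb
  rcases Nat.eq_zero_or_pos n with hn | hn
  · subst hn
    have : ENNReal.ofReal (1 - 7 * Real.exp (-(ε * ((0 : ℕ) : ℝ) / 12))) = 0 := by
      apply ENNReal.ofReal_of_nonpos
      simp
    rw [this]
    exact bot_le
  · set ν := P.map (A ⟨0, hn⟩ ⟨0, hn⟩) with hν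
    have hlaw : Law K n ν := law_entry n K Ω P _ (hA _ _) (hm _ _) (hv _ _) (hb _ _)
    have hνp : IsProbabilityMeasure ν := hlaw.prob
    have hmat := law_matrix n hn Ω P A hA hI hid
    rw [← hν] at hmat
    set X : Ω → Fin n → Fin n → ℝ := fun ω i j => A i j ω with hX
    have hXm : Measurable X := by fun_prop
    set L := Real.log (1 / ε) with hL
    have hL0 : 0 ≤ L := by
      apply Real.log_nonneg
      rw [le_div_iff₀ hε]
      linarith
    set b := C * L * √n with hbdef
    have hb0 : 0 ≤ b := by positivity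
    set E := Real.exp (-(ε * n / 12)) with hE
    set S : Set (Fin n → Fin n → ℝ) := {a | ¬ ColGood n ε b a} with hSdef
    have hS : matLaw n ν S ≤ ENNReal.ofReal (3 * E) := hone ε n ν hn hε hε6 hlaw
    have hB1 : P (X ⁻¹' S) ≤ ENNReal.ofReal (3 * E) := by
      refine (Measure.le_map_apply hXm.aemeasurable S).trans ?_
      rw [hmat]
      exact hS
    have hTm : Measurable (fun (a : Fin n → Fin n → ℝ) i j => a j i) := by fun_prop
    have hB2 : P ((fun ω i j => A j i ω) ⁻¹' S) ≤ ENNReal.ofReal (3 * E) := by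
      have hYm : Measurable (fun (ω : Ω) (i j : Fin n) => A j i ω) := by fun_prop
      refine (Measure.le_map_apply hYm.aemeasurable S).trans ?_
      have e : P.map (fun (ω : Ω) (i j : Fin n) => A j i ω) = matLaw n ν := by
        have e1 : (fun (ω : Ω) (i j : Fin n) => A j i ω)
            = (fun (a : Fin n → Fin n → ℝ) i j => a j i) ∘ X := rfl
        rw [e1, ← Measure.map_map hTm hXm, hmat]
        exact hTRP n ν hνp
      rw [e]
      exact hS
    set good : Set Ω := {ω | ∃ I J : Finset (Fin n), (I.card : ℝ) ≤ ε * n ∧ (J.card : ℝ) ≤ ε * n ∧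
      ‖Matrix.toEuclideanCLM (𝕜 := ℝ) (Matrix.of fun i j : Fin n =>
        if i ∈ I ∧ j ∈ J then 0 else A i j ω)‖ ≤ 2 * C * L * √n} with hgood
    have hcov : (Set.univ : Set Ω) ⊆ good ∪ ((X ⁻¹' S) ∪ ((fun ω i j => A j i ω) ⁻¹' S)) := by
      intro ω _
      by_cases h1 : X ω ∈ S
      · right; left; exact h1
      by_cases h2 : (fun i j => A j i ω) ∈ S
      · right; right; exact h2
      left
      obtain ⟨J, hJc, hJ⟩ := not_not.1 h1
      obtain ⟨I, hIc, hI'⟩ := not_not.1 h2
      refine ⟨I, J, hIc, hJc, ?_⟩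
      have hdet := det_norm n (fun i j => A i j ω) b hb0 I J hJ hI'
      have := opnorm_bound n (Matrix.of fun i j : Fin n =>
        if i ∈ I ∧ j ∈ J then 0 else A i j ω) (2 * b) (by positivity) hdet
      refine this.trans (le_of_eq ?_)
      rw [hbdef]; ring
    have h1 : (1 : ENNReal) ≤ P good + ENNReal.ofReal (6 * E) := by
      calc (1 : ENNReal) = P Set.univ := measure_univ.symm
        _ ≤ P (good ∪ ((X ⁻¹' S) ∪ ((fun ω i j => A j i ω) ⁻¹' S))) := measure_mono hcov
        _ ≤ P good + (P (X ⁻¹' S) + P ((fun ω i j => A j i ω) ⁻¹' S)) :=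
            (measure_union_le _ _).trans (add_le_add le_rfl (measure_union_le _ _))
        _ ≤ P good + (ENNReal.ofReal (3 * E) + ENNReal.ofReal (3 * E)) := by gcongr
        _ = P good + ENNReal.ofReal (6 * E) := by
            rw [← ENNReal.ofReal_add (by positivity) (by positivity)]
            congr 2
            ring
    have h2 : ENNReal.ofReal (1 - 7 * E) ≤ 1 - ENNReal.ofReal (6 * E) := by
      rw [← ENNReal.ofReal_one, ← ENNReal.ofReal_sub _ (by positivity)]
      apply ENNReal.ofReal_le_ofReal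
      have : 0 ≤ E := by positivity
      linarith
    refine h2.trans ?_
    rw [tsub_le_iff_right]
    exact h1

end Pool.Agent.H11.NR
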