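import Pool.Agent.H99.NR.Stm

set_option linter.all false
set_option autoImplicit false

open MeasureTheory ProbabilityTheory Pool.Agent.H99.NR

noncomputable section

namespace Pool.Agent.H11.NR

open Classical in
theorem measurableSet_inLev (K : ℝ) (n k : ℕ) : MeasurableSet {a : ℝ | inLev K n k a} := by
  unfold inLev
  exact (measurableSet_lt measurable_const measurable_norm).inter
    (measurableSet_le measurable_norm measurable_const)

theorem measurable_cnt (K : ℝ) (n k : ℕ) :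
    Measurable (fun r : Fin n → ℝ => (cnt K n k r : ℝ)) := by
  have e : (fun r : Fin n → ℝ => (cnt K n k r : ℝ)) =
      fun r => ∑ j, Set.indicator {a : ℝ | inLev K n k a} (fun _ => (1 : ℝ)) (r j) := by
    funext r
    unfold cnt
    rw [Finset.card_filter]
    push_cast
    refine Finset.sum_congr rfl fun j _ => ?_
    by_cases h : inLev K n k (r j)
    · rw [if_pos h, Set.indicator_of_mem (by exact h)]
    · rw [if_neg h, Set.indicator_of_notMem (by exact h)]
  rw [e]
  refine Finset.measurable_sum _ fun j _ => ?_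
  exact (measurable_const.indicator (measurableSet_inLev K n k)).comp (measurable_pi_apply j)

theorem measurableSet_bad (K L : ℝ) (n k : ℕ) : MeasurableSet {r : Fin n → ℝ | bad K L n k r} := by
  unfold bad
  exact measurableSet_lt measurable_const (measurable_cnt K n k)

theorem measurableSet_exc (K L : ℝ) (n : ℕ) (j : Fin n) :
    MeasurableSet {r : Fin n → ℝ | j ∈ exc K L n r} := by
  have e : {r : Fin n → ℝ | j ∈ exc K L n r} =
      ⋃ k : ℕ, ({r : Fin n → ℝ | inLev K n k (r j)} ∩ {r | bad K L n k r}) := by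
    ext r
    simp [exc]
  rw [e]
  refine MeasurableSet.iUnion fun k => ?_
  refine MeasurableSet.inter ?_ (measurableSet_bad K L n k)
  exact (measurable_pi_apply j : Measurable fun r : Fin n → ℝ => r j) (measurableSet_inLev K n k)

theorem measurable_sm (β : ℝ) : Measurable (sm β) := by
  unfold sm
  exact Measurable.ite (measurableSet_le measurable_norm measurable_const) measurable_id
    measurable_const

theorem sm_abs_le {β : ℝ} (hβ : 0 ≤ β) (a : ℝ) : |sm β a| ≤ β := by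
  unfold sm
  split_ifs with h
  · exact h
  · simpa using hβ

theorem sm_sq_le (β a : ℝ) : sm β a ^ 2 ≤ a ^ 2 := by
  unfold sm
  split_ifs with h
  · exact le_refl _
  · have := sq_nonneg a
    simpa using this

theorem measurable_Yr (K L : ℝ) (n : ℕ) (β u : ℝ) (x : Fin n → SignType) :
    Measurable (Yr K L n β u x) := by
  unfold Yr
  refine Finset.measurable_sum _ fun j _ => ?_
  refine Measurable.const_mul (Measurable.sub_const ?_ u) _
  exact Measurable.ite (measurableSet_exc K L n j) measurable_const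
    ((measurable_sm β).comp (measurable_pi_apply j))

theorem sign_abs_le (s : SignType) : |(s : ℝ)| ≤ 1 := by
  cases s <;> simp

theorem Yr_bdd (K L : ℝ) (n : ℕ) (β u : ℝ) (hβ : 0 ≤ β) (x : Fin n → SignType) (r : Fin n → ℝ) :
    |Yr K L n β u x r| ≤ n * (β + |u|) := by
  unfold Yr
  refine (Finset.abs_sum_le_sum_abs _ _).trans ?_
  have : ∀ j ∈ (Finset.univ : Finset (Fin n)),
      |(x j : ℝ) * ((if j ∈ exc K L n r then 0 else sm β (r j)) - u)| ≤ β + |u| := by
    intro j _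
    rw [abs_mul]
    have h1 : |(if j ∈ exc K L n r then 0 else sm β (r j)) - u| ≤ β + |u| := by
      refine (abs_sub _ _).trans ?_
      gcongr
      split_ifs
      · simpa using hβ
      · exact sm_abs_le hβ _
    calc |(x j : ℝ)| * |(if j ∈ exc K L n r then 0 else sm β (r j)) - u|
        ≤ 1 * (β + |u|) := mul_le_mul (sign_abs_le _) h1 (abs_nonneg _) (by norm_num)
      _ = _ := one_mul _
  refine (Finset.sum_le_sum this).trans ?_
  simp [mul_add]

theorem int_sq {K : ℝ} {n : ℕ} {ν : Measure ℝ} (hl : Law K n ν) : Integrable (fun a => a ^ 2) ν := by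
  by_contra h
  have := integral_undef h
  rw [hl.var] at this
  exact one_ne_zero this

theorem sum_sign_sq {n : ℕ} (x : Fin n → SignType) : ∑ j, (x j : ℝ) ^ 2 = sz x := by
  unfold sz
  rw [Finset.card_filter]
  push_cast
  refine Finset.sum_congr rfl fun j _ => ?_
  cases x j <;> simp

/-- second moment -/
theorem second_moment {K : ℝ} {n : ℕ} {ν : Measure ℝ} (hl : Law K n ν) {β : ℝ} (hβ : 0 ≤ β)
    (x : Fin n → SignType) :
    ∫ r, (∑ j, (x j : ℝ) * (sm β (r j) - ∫ a, sm β a ∂ν)) ^ 2 ∂(rowLaw n ν) ≤ sz x := by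
  haveI := hl.prob
  set u := ∫ a, sm β a ∂ν with hu
  set X : Fin n → ℝ → ℝ := fun j a => (x j : ℝ) * (sm β a - u) with hX
  have hXm : ∀ j, Measurable (X j) := fun j => ((measurable_sm β).sub_const u).const_mul _
  have hXb : ∀ j a, ‖X j a‖ ≤ β + |u| := by
    intro j a
    rw [Real.norm_eq_abs]
    simp only [hX]
    rw [abs_mul]
    calc |(x j : ℝ)| * |sm β a - u| ≤ 1 * (β + |u|) :=
          mul_le_mul (sign_abs_le _) ((abs_sub _ _).trans (by gcongr; exact sm_abs_le hβ a))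
            (abs_nonneg _) (by norm_num)
      _ = _ := one_mul _
  have hXL : ∀ j, MemLp (X j) 2 ν := fun j =>
    MemLp.of_bound (hXm j).aestronglyMeasurable (β + |u|) (Filter.Eventually.of_forall (hXb j))
  have hsmL : MemLp (sm β) 2 ν := MemLp.of_bound (measurable_sm β).aestronglyMeasurable β
    (Filter.Eventually.of_forall (fun a => by rw [Real.norm_eq_abs]; exact sm_abs_le hβ a))
  have hsmI : Integrable (sm β) ν := hsmL.integrable (by norm_num)
  have hX0 : ∀ j, ∫ a, X j a ∂ν = 0 := by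
    intro j
    simp only [hX]
    rw [integral_const_mul, integral_sub hsmI (integrable_const _)]
    simp [hu]
  have hvar : Var[∑ j, fun r : Fin n → ℝ => X j (r j); Measure.pi (fun _ : Fin n => ν)]
      = ∑ j, Var[X j; ν] := variance_sum_pi hXL
  have hvj : ∀ j, Var[X j; ν] ≤ (x j : ℝ) ^ 2 := by
    intro j
    have h1 : Var[X j; ν] = ∫ a, X j a ^ 2 ∂ν := by
      rw [variance_of_integral_eq_zero (hXm j).aemeasurable (hX0 j)]
    have h2 : ∫ a, X j a ^ 2 ∂ν = (x j : ℝ) ^ 2 * ∫ a, (sm β a - u) ^ 2 ∂ν := by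
      rw [← integral_const_mul]
      congr 1
      funext a
      simp only [hX]
      ring
    have h3 : ∫ a, (sm β a - u) ^ 2 ∂ν ≤ 1 := by
      have h4 : Var[sm β; ν] = ∫ a, (sm β a - u) ^ 2 ∂ν :=
        variance_eq_integral (measurable_sm β).aemeasurable
      rw [← h4]
      refine (variance_le_expectation_sq (measurable_sm β).aestronglyMeasurable).trans ?_
      rw [← hl.var]
      refine integral_mono hsmL.integrable_sq (int_sq hl) fun a => ?_
      exact sm_sq_le β a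
    rw [h1, h2]
    calc (x j : ℝ) ^ 2 * ∫ a, (sm β a - u) ^ 2 ∂ν ≤ (x j : ℝ) ^ 2 * 1 :=
          mul_le_mul_of_nonneg_left h3 (sq_nonneg _)
      _ = _ := mul_one _
  have hmeasS : Measurable (fun r : Fin n → ℝ => ∑ j, X j (r j)) :=
    Finset.measurable_sum _ fun j _ => (hXm j).comp (measurable_pi_apply j)
  have hsum : (∑ j, fun r : Fin n → ℝ => X j (r j)) = fun r : Fin n → ℝ => ∑ j, X j (r j) := by
    funext r
    simp
  have hmean : ∫ r : Fin n → ℝ, ∑ j, X j (r j) ∂(Measure.pi (fun _ : Fin n => ν)) = 0 := by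
    rw [integral_finset_sum]
    · refine Finset.sum_eq_zero fun j _ => ?_
      have h5 := integral_map (μ := Measure.pi (fun _ : Fin n => ν)) (φ := Function.eval j)
        (measurable_pi_apply j).aemeasurable (f := X j) (hXm j).aestronglyMeasurable
      rw [(measurePreserving_eval (fun _ : Fin n => ν) j).map_eq, hX0 j] at h5
      exact h5.symm
    · intro j _
      exact ((measurePreserving_eval (fun _ : Fin n => ν) j).integrable_comp
        (hXm j).aestronglyMeasurable).2 ((hXL j).integrable (by norm_num))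
  have hfin : Var[fun r : Fin n → ℝ => ∑ j, X j (r j); Measure.pi (fun _ : Fin n => ν)]
      = ∫ r, (∑ j, X j (r j)) ^ 2 ∂(rowLaw n ν) := by
    rw [variance_of_integral_eq_zero hmeasS.aemeasurable hmean]
    rfl
  rw [← hfin, ← hsum, hvar, ← sum_sign_sq]
  exact Finset.sum_le_sum fun j _ => hvj j

theorem Yr_eq {K L : ℝ} (hK : 1 ≤ K) {n κ : ℕ} (u : ℝ) (x : Fin n → SignType) (r : Fin n → ℝ)
    (hr : ¬ ∃ k, κ ≤ k ∧ bad K L n k r) :
    Yr K L n (K * √n / 2 ^ κ) u x r = ∑ j, (x j : ℝ) * (sm (K * √n / 2 ^ κ) (r j) - u) := by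
  unfold Yr
  refine Finset.sum_congr rfl fun j _ => ?_
  congr 2
  by_cases hj : j ∈ exc K L n r
  · rw [if_pos hj]
    obtain ⟨k, hk1, hk2⟩ : ∃ k, inLev K n k (r j) ∧ bad K L n k r := by
      simpa [exc] using hj
    have hkκ : k + 1 ≤ κ := by
      by_contra hc
      exact hr ⟨k, by omega, hk2⟩
    have h1 : K * √n / 2 ^ κ ≤ K * √n / 2 ^ (k + 1) := by
      apply div_le_div_of_nonneg_left (by positivity) (by positivity)
      exact pow_le_pow_right₀ (by norm_num) hkκ
    unfold sm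
    rw [if_neg]
    have := hk1.1
    exact not_le.2 (lt_of_le_of_lt h1 this)
  · rw [if_neg hj]

theorem exp_le_one_add_two {t : ℝ} (h0 : 0 ≤ t) (h1 : t ≤ 1) : Real.exp t ≤ 1 + 2 * t := by
  have h2 : |Real.exp t - 1| ≤ 2 * |t| := Real.abs_exp_sub_one_le (by rwa [abs_of_nonneg h0])
  rw [abs_of_nonneg h0] at h2
  have := le_abs_self (Real.exp t - 1)
  linarith

/-- the pointwise bound -/
theorem pointwise {n : ℕ} (hn : 1 ≤ n) {c C₁ : ℝ} (hc : 0 < c) (hC1 : 1 ≤ C₁) (hC8 : 8 ≤ c * C₁)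
    (N : ℕ) (Y Y' : ℝ) (b : Prop) [Decidable b] (hY : ¬ b → Y = Y') (hN : |Y| ≤ N * √n) :
    Real.exp (Y ^ 2 / (C₁ * n)) ≤ 1 + (2 / (C₁ * n)) * (Y' ^ 2 + n * (if b then 1 else 0)) +
      ∑ s ∈ Finset.Icc 1 N, Real.exp (c * (s : ℝ) ^ 2 / 2) * (if s * √n < |Y| then 1 else 0) := by
  have hnp : (0 : ℝ) < n := by exact_mod_cast hn
  have hsn : 0 < √(n : ℝ) := Real.sqrt_pos.2 hnp
  have hC1p : 0 < C₁ := by linarith
  have hsum0 : 0 ≤ ∑ s ∈ Finset.Icc 1 N, Real.exp (c * (s : ℝ) ^ 2 / 2) *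
      (if (s : ℝ) * √n < |Y| then (1 : ℝ) else 0) := by
    refine Finset.sum_nonneg fun s _ => ?_
    split_ifs <;> positivity
  have hmid0 : 0 ≤ (2 / (C₁ * n)) * (Y' ^ 2 + n * (if b then (1 : ℝ) else 0)) := by
    split_ifs <;> positivity
  by_cases hcase : |Y| ≤ √n
  · have hY2 : Y ^ 2 ≤ n := by
      rw [← sq_abs]
      calc |Y| ^ 2 ≤ √n ^ 2 := pow_le_pow_left₀ (abs_nonneg _) hcase 2
        _ = n := Real.sq_sqrt hnp.le
    have ht1 : Y ^ 2 / (C₁ * n) ≤ 1 := by
      rw [div_le_one (by positivity)]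
      calc Y ^ 2 ≤ 1 * n := by linarith
        _ ≤ C₁ * n := by gcongr
    have h1 := exp_le_one_add_two (t := Y ^ 2 / (C₁ * n)) (by positivity) ht1
    have h2 : Y ^ 2 ≤ Y' ^ 2 + n * (if b then (1 : ℝ) else 0) := by
      by_cases hb : b
      · rw [if_pos hb]
        have := sq_nonneg Y'
        linarith
      · rw [if_neg hb, hY hb]
        linarith
    have h3 : 2 * (Y ^ 2 / (C₁ * n)) ≤ (2 / (C₁ * n)) * (Y' ^ 2 + n * (if b then (1 : ℝ) else 0)) := by
      calc 2 * (Y ^ 2 / (C₁ * n)) = (2 / (C₁ * n)) * Y ^ 2 := by ring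
        _ ≤ _ := mul_le_mul_of_nonneg_left h2 (by positivity)
    linarith
  · rw [not_le] at hcase
    set T := |Y| / √n with hT
    have hT1 : 1 < T := by rw [hT, lt_div_iff₀ hsn]; linarith
    set s := ⌈T⌉₊ - 1 with hs
    have hc2 : 2 ≤ ⌈T⌉₊ := by
      have : (1 : ℝ) < ⌈T⌉₊ := lt_of_lt_of_le hT1 (Nat.le_ceil T)
      have : 1 < ⌈T⌉₊ := by exact_mod_cast this
      omega
    have hs1 : 1 ≤ s := by omega
    have hsc : (⌈T⌉₊ : ℝ) = s + 1 := by
      have : ⌈T⌉₊ = s + 1 := by omega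
      rw [this]; push_cast; ring
    have hTs : T ≤ s + 1 := by rw [← hsc]; exact Nat.le_ceil T
    have hsT : (s : ℝ) < T := by
      have h1 := Nat.ceil_lt_add_one (show 0 ≤ T by linarith)
      rw [hsc] at h1
      linarith
    have hTN : T ≤ N := by
      rw [hT, div_le_iff₀ hsn]
      exact hN
    have hsN : s ≤ N := by
      have : (s : ℝ) < N := lt_of_lt_of_le hsT hTN
      exact_mod_cast this.le
    have hsY : (s : ℝ) * √n < |Y| := by
      rw [hT, lt_div_iff₀ hsn] at hsT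
      exact hsT
    have hYs : Y ^ 2 / (C₁ * n) ≤ c * (s : ℝ) ^ 2 / 2 := by
      have h1 : Y ^ 2 = T ^ 2 * n := by
        rw [hT, div_pow, sq_abs, Real.sq_sqrt hnp.le]
        field_simp
      have h2 : T ^ 2 ≤ 4 * (s : ℝ) ^ 2 := by
        have h3 : T ≤ 2 * s := by
          have : (1 : ℝ) ≤ s := by exact_mod_cast hs1
          linarith
        calc T ^ 2 ≤ (2 * (s : ℝ)) ^ 2 := pow_le_pow_left₀ (by linarith) h3 2
          _ = _ := by ring
      rw [h1, div_le_iff₀ (by positivity)]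
      have h4 : (4 * (s : ℝ) ^ 2) * n ≤ c * (s : ℝ) ^ 2 / 2 * (C₁ * n) := by
        have h5 : c * (s : ℝ) ^ 2 / 2 * (C₁ * n) = (c * C₁) * ((s : ℝ) ^ 2 * n / 2) := by ring
        rw [h5]
        calc (4 * (s : ℝ) ^ 2) * n = 8 * ((s : ℝ) ^ 2 * n / 2) := by ring
          _ ≤ _ := mul_le_mul_of_nonneg_right hC8 (by positivity)
      exact (mul_le_mul_of_nonneg_right h2 hnp.le).trans h4
    have hterm : Real.exp (c * (s : ℝ) ^ 2 / 2) ≤ ∑ s ∈ Finset.Icc 1 N,
        Real.exp (c * (s : ℝ) ^ 2 / 2) * (if (s : ℝ) * √n < |Y| then (1 : ℝ) else 0) := by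
      have := Finset.single_le_sum (s := Finset.Icc 1 N) (f := fun s : ℕ =>
        Real.exp (c * (s : ℝ) ^ 2 / 2) * (if (s : ℝ) * √n < |Y| then (1 : ℝ) else 0))
        (fun i _ => by split_ifs <;> positivity) (Finset.mem_Icc.2 ⟨hs1, hsN⟩)
      refine le_trans ?_ this
      simp only [if_pos hsY, mul_one]
      exact le_refl _
    have h6 := Real.exp_le_exp.2 hYs
    linarith

theorem geom_bound {c : ℝ} (hc : 0 < c) (N : ℕ) :
    ∑ s ∈ Finset.Icc 1 N, Real.exp (-(c * (s : ℝ) ^ 2 / 2)) ≤ 1 / (1 - Real.exp (-(c / 2))) := by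
  set q := Real.exp (-(c / 2)) with hq
  have hq0 : 0 < q := Real.exp_pos _
  have hq1 : q < 1 := by rw [hq, Real.exp_lt_one_iff]; linarith
  have h1 : ∑ s ∈ Finset.Icc 1 N, Real.exp (-(c * (s : ℝ) ^ 2 / 2)) ≤
      ∑ s ∈ Finset.Icc 1 N, q ^ s := by
    refine Finset.sum_le_sum fun s hs => ?_
    have hs1 : (1 : ℝ) ≤ s := by exact_mod_cast (Finset.mem_Icc.1 hs).1
    rw [hq, ← Real.exp_nat_mul]
    apply Real.exp_le_exp.2
    have : (s : ℝ) ≤ (s : ℝ) ^ 2 := by
      calc (s : ℝ) = s * 1 := by ring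
        _ ≤ s * s := by gcongr
        _ = _ := by ring
    have h2 : c * s ≤ c * (s : ℝ) ^ 2 := by gcongr
    linarith
  have h2 : ∑ s ∈ Finset.Icc 1 N, q ^ s ≤ ∑ s ∈ Finset.range (N + 1), q ^ s := by
    refine Finset.sum_le_sum_of_subset_of_nonneg ?_ fun i _ _ => by positivity
    intro s hs
    rw [Finset.mem_range]
    have := (Finset.mem_Icc.1 hs).2
    omega
  have h3 : ∑ s ∈ Finset.range (N + 1), q ^ s ≤ ∑' s : ℕ, q ^ s :=
    (summable_geometric_of_lt_one hq0.le hq1).sum_le_tsum _ fun i _ => by positivity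
  rw [tsum_geometric_of_lt_one hq0.le hq1] at h3
  rw [one_div]
  linarith

open Classical in
theorem t_MGR (hROW : S_ROW) (hBAD : S_BAD) : S_MGR := by
  intro K hK
  obtain ⟨c, C, hc, hC, hrow⟩ := hROW K hK
  set q := Real.exp (-(c / 2)) with hq
  have hq1 : q < 1 := by rw [hq, Real.exp_lt_one_iff]; linarith
  set C₁ := max (8 / c) 1 with hC₁
  have hC1 : 1 ≤ C₁ := le_max_right _ _
  have hC1p : 0 < C₁ := by linarith
  have hC8 : 8 ≤ c * C₁ := by
    have : 8 / c ≤ C₁ := le_max_left _ _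
    rw [div_le_iff₀ hc] at this
    linarith
  refine ⟨C₁, 4 / C₁ + C * (1 / (1 - q)), hC1p, ?_, ?_⟩
  · have : 0 < 1 - q := by linarith
    positivity
  intro ε n κ ν hn hε hε6 hl hcut x hx
  haveI := hl.prob
  have hnp : (0 : ℝ) < n := by exact_mod_cast hn
  have hsn : 0 < √(n : ℝ) := Real.sqrt_pos.2 hnp
  set L := Real.log (1 / ε) with hL
  have hL1 : 1 ≤ L := by
    rw [hL, Real.le_log_iff_exp_le (by positivity)]
    rw [le_div_iff₀ hε]
    have h1 := Real.exp_one_lt_d9
    nlinarith [Real.exp_pos 1]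
  set β := K * √n / 2 ^ κ with hβ
  have hβ0 : 0 ≤ β := by positivity
  set u := ∫ a, sm β a ∂ν with hu
  set Y := Yr K L n β u x with hYdef
  haveI : IsProbabilityMeasure (rowLaw n ν) := by unfold rowLaw; infer_instance
  set μ := rowLaw n ν with hμ
  have hYm : Measurable Y := measurable_Yr K L n β u x
  obtain ⟨N, hN⟩ : ∃ N : ℕ, n * (β + |u|) ≤ N * √n := by
    obtain ⟨N, hN⟩ := exists_nat_ge (n * (β + |u|) / √n)
    exact ⟨N, by rwa [div_le_iff₀ hsn] at hN⟩
  have hYN : ∀ r, |Y r| ≤ N * √n := fun r => (Yr_bdd K L n β u hβ0 x r).trans hN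
  have hWm : Measurable fun r => Real.exp (Y r ^ 2 / (C₁ * n)) :=
    ((hYm.pow_const 2).div_const _).exp
  have hWI : Integrable (fun r => Real.exp (Y r ^ 2 / (C₁ * n))) μ := by
    refine ⟨hWm.aestronglyMeasurable, HasFiniteIntegral.of_bounded
      (C := Real.exp ((N * √n) ^ 2 / (C₁ * n))) (Filter.Eventually.of_forall fun r => ?_)⟩
    rw [Real.norm_eq_abs, abs_of_pos (Real.exp_pos _)]
    apply Real.exp_le_exp.2
    have : Y r ^ 2 ≤ (N * √n) ^ 2 := by
      rw [← sq_abs]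
      exact pow_le_pow_left₀ (abs_nonneg _) (hYN r) 2
    gcongr
  refine ⟨hWI, ?_⟩
  set Bs : Set (Fin n → ℝ) := {r | ∃ k, κ ≤ k ∧ bad K L n k r} with hBs
  have hBm : MeasurableSet Bs := by
    have e : Bs = ⋃ k : ℕ, {r : Fin n → ℝ | κ ≤ k ∧ bad K L n k r} := by
      ext r; simp [hBs]
    rw [e]
    refine MeasurableSet.iUnion fun k => ?_
    by_cases hk : κ ≤ k
    · simpa [hk] using measurableSet_bad K L n k
    · simp [hk]
  set Y' : (Fin n → ℝ) → ℝ := fun r => ∑ j, (x j : ℝ) * (sm β (r j) - u) with hY'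
  have hY'm : Measurable Y' := Finset.measurable_sum _ fun j _ =>
    (((measurable_sm β).comp (measurable_pi_apply j)).sub_const u).const_mul _
  have hY'b : ∀ r, |Y' r| ≤ n * (β + |u|) := by
    intro r
    refine (Finset.abs_sum_le_sum_abs _ _).trans ?_
    have : ∀ j ∈ (Finset.univ : Finset (Fin n)), |(x j : ℝ) * (sm β (r j) - u)| ≤ β + |u| := by
      intro j _
      rw [abs_mul]
      calc |(x j : ℝ)| * |sm β (r j) - u| ≤ 1 * (β + |u|) :=
            mul_le_mul (sign_abs_le _) ((abs_sub _ _).trans (by gcongr; exact sm_abs_le hβ0 _))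
              (abs_nonneg _) (by norm_num)
        _ = _ := one_mul _
    refine (Finset.sum_le_sum this).trans ?_
    simp [mul_add]
  have hY'I : Integrable (fun r => Y' r ^ 2) μ := by
    refine ⟨(hY'm.pow_const 2).aestronglyMeasurable, HasFiniteIntegral.of_bounded
      (C := (n * (β + |u|)) ^ 2) (Filter.Eventually.of_forall fun r => ?_)⟩
    rw [Real.norm_eq_abs, abs_of_nonneg (sq_nonneg _), ← sq_abs]
    exact pow_le_pow_left₀ (abs_nonneg _) (hY'b r) 2
  set As : ℕ → Set (Fin n → ℝ) := fun s => {r | s * √n < |Y r|} with hAs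
  have hAm : ∀ s, MeasurableSet (As s) := fun s => measurableSet_lt measurable_const hYm.abs
  -- the pointwise bound
  have hpt : ∀ r, Real.exp (Y r ^ 2 / (C₁ * n)) ≤
      1 + (2 / (C₁ * n)) * (Y' r ^ 2 + n * Bs.indicator (fun _ => (1 : ℝ)) r) +
      ∑ s ∈ Finset.Icc 1 N, Real.exp (c * (s : ℝ) ^ 2 / 2) * (As s).indicator (fun _ => (1 : ℝ)) r := by
    intro r
    have := pointwise hn hc hC1 hC8 N (Y r) (Y' r) (r ∈ Bs)
      (fun hb => Yr_eq hK u x r hb) (hYN r)
    simpa only [Set.indicator_apply, hAs, Set.mem_setOf_eq] using this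
  have hindI : ∀ S : Set (Fin n → ℝ), MeasurableSet S →
      Integrable (S.indicator (fun _ => (1 : ℝ))) μ := fun S hS =>
    (integrable_const (1 : ℝ)).indicator hS
  have hI1 : Integrable (fun r => (2 / (C₁ * n)) * (Y' r ^ 2 + n * Bs.indicator (fun _ => (1 : ℝ)) r)) μ :=
    (hY'I.add ((hindI _ hBm).const_mul _)).const_mul _
  have hI2 : Integrable (fun r => ∑ s ∈ Finset.Icc 1 N, Real.exp (c * (s : ℝ) ^ 2 / 2) *
      (As s).indicator (fun _ => (1 : ℝ)) r) μ :=
    integrable_finset_sum _ fun s _ => (hindI _ (hAm s)).const_mul _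
  set f1 : (Fin n → ℝ) → ℝ := fun r =>
    (2 / (C₁ * n)) * (Y' r ^ 2 + n * Bs.indicator (fun _ => (1 : ℝ)) r) with hf1
  set f2 : (Fin n → ℝ) → ℝ := fun r => ∑ s ∈ Finset.Icc 1 N, Real.exp (c * (s : ℝ) ^ 2 / 2) *
      (As s).indicator (fun _ => (1 : ℝ)) r with hf2
  have hI12 : Integrable (fun r => (1 : ℝ) + f1 r) μ := (integrable_const (1 : ℝ)).add hI1
  have hI3 : Integrable (fun r => (1 : ℝ) + f1 r + f2 r) μ := hI12.add hI2
  have hint := integral_mono (μ := μ) hWI hI3 hpt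
  refine hint.trans ?_
  have hindint : ∀ S : Set (Fin n → ℝ), MeasurableSet S →
      ∫ r, S.indicator (fun _ => (1 : ℝ)) r ∂μ = μ.real S := by
    intro S hS
    rw [integral_indicator_const _ hS, smul_eq_mul, mul_one]
  have hv1 : ∫ r, f1 r ∂μ = (2 / (C₁ * n)) * (∫ r, Y' r ^ 2 ∂μ + n * μ.real Bs) := by
    rw [hf1, integral_const_mul, integral_add hY'I ((hindI _ hBm).const_mul _), integral_const_mul,
      hindint _ hBm]
  have hv2 : ∫ r, f2 r ∂μ = ∑ s ∈ Finset.Icc 1 N, Real.exp (c * (s : ℝ) ^ 2 / 2) *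
      μ.real (As s) := by
    rw [hf2, integral_finset_sum _ (fun s _ => (hindI _ (hAm s)).const_mul _)]
    refine Finset.sum_congr rfl fun s _ => ?_
    rw [integral_const_mul, hindint _ (hAm s)]
  have hval : ∫ r, ((1 : ℝ) + f1 r + f2 r) ∂μ
      = 1 + (2 / (C₁ * n)) * (∫ r, Y' r ^ 2 ∂μ + n * μ.real Bs) +
        ∑ s ∈ Finset.Icc 1 N, Real.exp (c * (s : ℝ) ^ 2 / 2) * μ.real (As s) := by
    rw [integral_add hI12 hI2, integral_add (integrable_const (1 : ℝ)) hI1, hv1, hv2]
    simp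
  refine (le_of_eq hval).trans ?_
  -- bounds
  set m : ℝ := (sz x : ℝ) with hm
  have hm0 : 0 < m := lt_of_lt_of_le (by positivity) hx
  have hY2 : ∫ r, Y' r ^ 2 ∂μ ≤ m := second_moment hl hβ0 x
  have hB : μ.real Bs ≤ m / n := by
    have h1 := hBAD K L n ν hK (by linarith) hn hl κ
    refine h1.trans ?_
    have h2 : (8 * K * L) ^ 2 ≤ 4 ^ κ := by
      have h3 : (4 : ℝ) ^ κ = (2 ^ κ) ^ 2 := by
        rw [← pow_mul, mul_comm κ 2, pow_mul]; norm_num
      rw [h3]
      exact pow_le_pow_left₀ (by positivity) hcut.1 2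
    have h4 : 64 * L ≤ (8 * K * L) ^ 2 := by
      have h5 : (8 * K * L) ^ 2 = 64 * ((K * L) * (K * L)) := by ring
      rw [h5]
      have h6 : L ≤ K * L := by
        calc L = 1 * L := by ring
          _ ≤ K * L := by gcongr
      have h7 : L * 1 ≤ (K * L) * (K * L) := by
        apply mul_le_mul h6 (hL1.trans h6) (by norm_num) (by positivity)
      linarith
    have h8 : -(500 * (4 : ℝ) ^ κ) ≤ -(L + 3) := by linarith
    calc Real.exp (-(500 * (4 : ℝ) ^ κ)) ≤ Real.exp (-(L + 3)) := Real.exp_le_exp.2 h8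
      _ = ε * Real.exp (-3) := by
          rw [neg_add, Real.exp_add, hL, one_div, Real.log_inv, neg_neg, Real.exp_log hε]
      _ ≤ ε * (1 / 4) := by
          gcongr
          rw [Real.exp_neg, ← one_div]
          have := Real.add_one_le_exp (3 : ℝ)
          gcongr
          linarith
      _ ≤ m / n := by
          rw [le_div_iff₀ hnp]
          linarith
  have hA : ∀ s ∈ Finset.Icc 1 N, Real.exp (c * (s : ℝ) ^ 2 / 2) * μ.real (As s) ≤
      C * (m / n) * Real.exp (-(c * (s : ℝ) ^ 2 / 2)) := by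
    intro s hs
    have h1 := hrow ε n κ ν hn hε hε6 hl hcut x hx s (Finset.mem_Icc.1 hs).1
    have h2 : μ.real (As s) ≤ C * (m / n) * Real.exp (-(c * (s : ℝ) ^ 2)) := h1
    calc Real.exp (c * (s : ℝ) ^ 2 / 2) * μ.real (As s)
        ≤ Real.exp (c * (s : ℝ) ^ 2 / 2) * (C * (m / n) * Real.exp (-(c * (s : ℝ) ^ 2))) := by
          gcongr
      _ = C * (m / n) * (Real.exp (c * (s : ℝ) ^ 2 / 2) * Real.exp (-(c * (s : ℝ) ^ 2))) := by ring
      _ = _ := by
          rw [← Real.exp_add]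
          congr 2
          ring
  have hA2 : ∑ s ∈ Finset.Icc 1 N, Real.exp (c * (s : ℝ) ^ 2 / 2) * μ.real (As s) ≤
      C * (m / n) * (1 / (1 - q)) := by
    refine (Finset.sum_le_sum hA).trans ?_
    rw [← Finset.mul_sum]
    exact mul_le_mul_of_nonneg_left (geom_bound hc N) (by positivity)
  have hmid : (2 / (C₁ * n)) * (∫ r, Y' r ^ 2 ∂μ + n * μ.real Bs) ≤ 4 / C₁ * (m / n) := by
    have h1 : ∫ r, Y' r ^ 2 ∂μ + n * μ.real Bs ≤ m + n * (m / n) := by
      gcongr
    calc (2 / (C₁ * n)) * (∫ r, Y' r ^ 2 ∂μ + n * μ.real Bs)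
        ≤ (2 / (C₁ * n)) * (m + n * (m / n)) := mul_le_mul_of_nonneg_left h1 (by positivity)
      _ = _ := by field_simp; ring
  have hexp := Real.add_one_le_exp ((4 / C₁ + C * (1 / (1 - q))) * (m / n))
  have hfin : 1 + (4 / C₁ * (m / n)) + C * (m / n) * (1 / (1 - q)) =
      (4 / C₁ + C * (1 / (1 - q))) * (m / n) + 1 := by ring
  linarith

end Pool.Agent.H11.NR
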